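import Pool.Agent.Lib.MP_b8791a_lc.Decode

set_option autoImplicit false

namespace Pool.Agent.Results.MP_b8791a_lc.SigmaTwo

open Classical Pool.Agent.Lib.MP_b8791a_lc

theorem reduce (P : ℕ × ℕ × ℕ → Prop) (hP : ComputablePred P) :
    ∃ h : ℕ → ℕ, Primrec h ∧ ∀ e, ((¬ ∃ a, ∀ b, P (e, a, b)) ↔
      ∀ n : ℕ, (Nat.Partrec.Code.eval (Denumerable.ofNat Nat.Partrec.Code (h e)) n).Dom) := by
  obtain ⟨g, hg, hgP⟩ := ComputablePred.computable_iff.1 hP
  have h1 : Partrec (fun m : ℕ => Nat.rfind (fun b =>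
      (Part.some (!g ((Nat.unpair m).1, (Nat.unpair m).2, b)) : Part Bool))) := by
    refine Partrec.rfind (Computable₂.partrec₂ ?_)
    exact (Primrec.not.to_comp.comp (hg.comp
      ((Computable.fst.comp (Computable.unpair.comp Computable.fst)).pair
        ((Computable.snd.comp (Computable.unpair.comp Computable.fst)).pair Computable.snd)))).to₂
  obtain ⟨c, hc⟩ := Nat.Partrec.Code.exists_code.1 (Partrec.nat_iff.1 h1)
  refine ⟨fun e => Encodable.encode (Nat.Partrec.Code.curry c e),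
    Primrec.encode.comp (Nat.Partrec.Code.primrec₂_curry.comp (Primrec.const c) Primrec.id), ?_⟩
  intro e
  simp only [Denumerable.ofNat_encode, Nat.Partrec.Code.eval_curry, hc, Nat.unpair_pair,
    Nat.rfind_dom, hgP]
  simp

theorem result :
    ∃ R : ℕ → ℕ → Prop,
      (∀ a, ¬ R a a) ∧
      (∀ a b c, R a b → R b c → R a c) ∧
      (∀ a b, R a b ∨ a = b ∨ R b a) ∧
      ComputablePred (fun p : ℕ × ℕ => R p.1 p.2) ∧
      ∀ f : ℕ → ℕ, (∀ a b, R a b → R (f a) (f b)) → f ≠ id →
        ∀ P : ℕ × ℕ × ℕ → Prop, ComputablePred P →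
          TuringReducible
            (fun e : ℕ => Part.some (if ∃ a, ∀ b, P (e, a, b) then 1 else 0))
            (fun n : ℕ => Part.some (f n)) := by
  obtain ⟨R, h1, h2, h3, h4, h5⟩ := main
  refine ⟨R, h1, h2, h3, h4, fun f hf hne P hP => ?_⟩
  have hf' : ∀ a b, R a b ↔ R (f a) (f b) := by
    intro a b
    refine ⟨hf a b, fun h => ?_⟩
    rcases h3 a b with h' | h' | h'
    · exact h'
    · exact absurd (h' ▸ h) (h1 _)
    · exact absurd (h2 _ _ _ h (hf b a h')) (h1 _)
  have hne' : ∃ a, f a ≠ a := by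
    by_contra hc
    push Not at hc
    exact hne (funext hc)
  have h6 : RI {fun n : ℕ => Part.some (f n)} (fun e : ℕ =>
      if ∀ n : ℕ, (Nat.Partrec.Code.eval (Denumerable.ofNat Nat.Partrec.Code e) n).Dom
        then 1 else 0) := RecursiveIn.iff_nat.1 (h5 f hf' hne')
  obtain ⟨h, hh, hhP⟩ := reduce P hP
  have h7 := (RI.of_prim (Primrec.nat_sub.comp (Primrec.const 1) Primrec.id)).comp
    (h6.comp (RI.of_prim hh))
  refine RecursiveIn.iff_nat.2 (Nat.RecursiveIn.of_eq h7 (fun e => ?_))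
  by_cases he : ∃ a, ∀ b, P (e, a, b)
  · have := mt (hhP e).2 (not_not.2 he)
    simp only [he, this, if_true, if_false, id]
  · have := (hhP e).1 he
    simp only [he, this, if_false, id, implies_true, if_true]

end Pool.Agent.Results.MP_b8791a_lc.SigmaTwo
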